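import Pool.Agent.Helper73.RT.Defs

/-!
# Project RT: choice of the parameters (module RT-G1)
-/

set_option autoImplicit false

open Finset Filter

namespace Pool.Agent.Helper73.RT

/-- The deterministic part of the choice of the parameters. -/
theorem parameters_core (th ε : ℝ) (hth : 0 < th) (hε : 0 < ε) (n : ℕ) (L u : ℝ)
    (hL : L = Real.log n) (hu : u = Real.log L) (hu45 : 45 ≤ u) (hL450 : 450 ≤ L)
    (hLth : (50 * th) ^ 2 ≤ L) (hLε : 2 / ε ≤ L)
    (hexp : (624 / th) ^ 2 ≤ Real.exp u / u ^ 3)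
    (k : ℕ) (hk : k = ⌊L / (80 * u)⌋₊) (hk96 : 96 ≤ k)
    (hk1 : 10 / Real.sqrt k + Real.exp (-(k : ℝ) / 40) ≤ ε)
    (hk2 : 8 * Real.sqrt k / th + 3 ≤ k)
    (hk3 : 2 ≤ Real.exp (th * Real.sqrt k / 4)) :
    ∃ k s t H : ℕ, 96 ≤ k ∧ 1 ≤ s ∧ 4 * Real.sqrt k ≤ th * s ∧
      10 / Real.sqrt k + Real.exp (-(k : ℝ) / 40) ≤ ε ∧
      10 ≤ t ∧ 2 ≤ H ∧ n ≤ H * t ^ 40 ∧ (2 * s + 1) ^ k * H ≤ t ∧
      (n : ℝ) / 2 * Real.exp (-(th * Real.sqrt k) / 4) + 2 * (((2 * s + 1) ^ k : ℕ) : ℝ)
        ≤ ((t ^ 40 : ℕ) : ℝ) ∧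
      ((4 * q1T t : ℕ) : ℝ) ≤
        Real.sqrt n * Real.exp (-((th / 208) * Real.sqrt (Real.log n / Real.log (Real.log n)))) ∧
      (((2 * s + 1) ^ k : ℕ) : ℝ) ≤ ε * n := by
  have hL0 : 0 < L := by linarith
  have hu0 : 0 < u := by linarith
  have hkpos : (0 : ℝ) < k := by exact_mod_cast (by omega : 0 < k)
  have hk96' : (96 : ℝ) ≤ k := by exact_mod_cast hk96
  -- bounds for k
  have hkx : (k : ℝ) ≤ L / (80 * u) := by
    rw [hk]; exact Nat.floor_le (by positivity)
  have hxk : L / (80 * u) < k + 1 := by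
    rw [hk]; exact Nat.lt_floor_add_one _
  have hkL : (k : ℝ) ≤ L := by
    refine hkx.trans ?_
    rw [div_le_iff₀ (by positivity)]
    nlinarith
  have hn0 : (0 : ℝ) < n := by
    rcases Nat.eq_zero_or_pos n with h | h
    · exfalso
      rw [h] at hL
      simp at hL
      linarith
    · exact_mod_cast h
  have hnL : (n : ℝ) = Real.exp L := by
    rw [hL, Real.exp_log hn0]
  have hLu : L = Real.exp u := by
    rw [hu, Real.exp_log hL0]
  have hexp1 : (2 : ℝ) ≤ Real.exp 1 := by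
    have := Real.add_one_le_exp (1 : ℝ)
    linarith
  -- s
  obtain ⟨s, hs⟩ : ∃ s : ℕ, s = ⌈4 * Real.sqrt k / th⌉₊ := ⟨_, rfl⟩
  have hsqk : 0 < Real.sqrt k := Real.sqrt_pos.mpr hkpos
  have hs1 : 1 ≤ s := by
    rw [hs, Nat.one_le_ceil_iff]
    positivity
  have hs2 : 4 * Real.sqrt k ≤ th * s := by
    have h := Nat.le_ceil (4 * Real.sqrt k / th)
    rw [← hs, div_le_iff₀ hth] at h
    linarith
  have hs3 : 2 * s + 1 ≤ k := by
    have h := Nat.ceil_lt_add_one (show 0 ≤ 4 * Real.sqrt k / th by positivity)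
    rw [← hs] at h
    have h2 : (2 * (s : ℝ) + 1) ≤ k := by
      have h3 : 8 * Real.sqrt k / th = 2 * (4 * Real.sqrt k / th) := by ring
      rw [h3] at hk2
      linarith
    exact_mod_cast h2
  -- (2 s + 1) ^ k
  have hP : (((2 * s + 1) ^ k : ℕ) : ℝ) ≤ Real.exp (L / 80) := by
    have h1 : (((2 * s + 1) ^ k : ℕ) : ℝ) ≤ (k : ℝ) ^ k := by
      exact_mod_cast Nat.pow_le_pow_left hs3 k
    refine h1.trans ?_
    have h2 : (k : ℝ) ^ k = Real.exp (k * Real.log k) := by
      rw [mul_comm, ← Real.rpow_natCast, Real.rpow_def_of_pos hkpos]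
    rw [h2]
    apply Real.exp_le_exp.mpr
    have h3 : Real.log k ≤ u := by
      rw [hu]; exact Real.log_le_log hkpos hkL
    have h4 : (k : ℝ) * Real.log k ≤ k * u := mul_le_mul_of_nonneg_left h3 hkpos.le
    have h5 : (k : ℝ) * u ≤ L / (80 * u) * u := mul_le_mul_of_nonneg_right hkx hu0.le
    have h6 : L / (80 * u) * u = L / 80 := by field_simp
    linarith
  -- e
  obtain ⟨e, he⟩ : ∃ e : ℝ, e = th * Real.sqrt k / 4 := ⟨_, rfl⟩
  have he0 : 0 < e := by rw [he]; positivity
  have heL : e ≤ L / 200 := by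
    have h1 : Real.sqrt k ≤ Real.sqrt L := Real.sqrt_le_sqrt hkL
    have h2 : 50 * th ≤ Real.sqrt L := by
      apply Real.le_sqrt_of_sq_le hLth
    have h3 : Real.sqrt L * Real.sqrt L = L := Real.mul_self_sqrt hL0.le
    have h4 : th * Real.sqrt k ≤ th * Real.sqrt L := mul_le_mul_of_nonneg_left h1 hth.le
    have h5 : 50 * th * Real.sqrt L ≤ Real.sqrt L * Real.sqrt L :=
      mul_le_mul_of_nonneg_right h2 (Real.sqrt_nonneg _)
    rw [he]
    linarith
  -- H
  obtain ⟨H, hH⟩ : ∃ H : ℕ, H = ⌈Real.exp e⌉₊ := ⟨_, rfl⟩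
  have hH1 : Real.exp e ≤ H := by rw [hH]; exact Nat.le_ceil _
  have hE2 : 2 ≤ Real.exp e := by rw [he]; exact hk3
  have hH2 : 2 ≤ H := by
    have : (2 : ℝ) ≤ H := hE2.trans hH1
    exact_mod_cast this
  have hH3 : (H : ℝ) ≤ 2 * Real.exp e := by
    have h := Nat.ceil_lt_add_one (Real.exp_pos e).le
    rw [← hH] at h
    linarith
  -- t
  obtain ⟨y, hy⟩ : ∃ y : ℝ, y = Real.exp ((L - e) / 40) := ⟨_, rfl⟩
  obtain ⟨t, ht⟩ : ∃ t : ℕ, t = ⌈y⌉₊ := ⟨_, rfl⟩
  have hy0 : 0 < y := by rw [hy]; exact Real.exp_pos _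
  have ht1 : y ≤ t := by rw [ht]; exact Nat.le_ceil _
  have hyL : Real.exp (199 * L / 8000) ≤ y := by
    rw [hy]; apply Real.exp_le_exp.mpr; linarith
  have hy10 : 10 ≤ y := by
    refine le_trans ?_ hyL
    have := Real.add_one_le_exp (199 * L / 8000)
    linarith
  have ht10 : 10 ≤ t := by
    have : (10 : ℝ) ≤ t := hy10.trans ht1
    exact_mod_cast this
  have ht2 : (t : ℝ) ≤ 2 * y := by
    have h := Nat.ceil_lt_add_one hy0.le
    rw [← ht] at h
    linarith
  have hy40 : y ^ 40 = n * Real.exp (-e) := by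
    rw [hy, ← Real.exp_nat_mul, hnL, ← Real.exp_add]
    congr 1
    push_cast
    ring
  have ht40 : (n : ℝ) * Real.exp (-e) ≤ (t : ℝ) ^ 40 := by
    rw [← hy40]
    exact pow_le_pow_left₀ hy0.le ht1 40
  have hnH : n ≤ H * t ^ 40 := by
    have h1 : (n : ℝ) ≤ H * (t : ℝ) ^ 40 := by
      calc (n : ℝ) = Real.exp e * (n * Real.exp (-e)) := by
            rw [mul_left_comm, ← Real.exp_add]; simp
        _ ≤ H * (t : ℝ) ^ 40 := mul_le_mul hH1 ht40 (by positivity) (by positivity)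
    exact_mod_cast h1
  refine ⟨k, s, t, H, hk96, hs1, hs2, hk1, ht10, hH2, hnH, ?_, ?_, ?_, ?_⟩
  · -- (2 s + 1) ^ k * H ≤ t
    have h1 : (((2 * s + 1) ^ k * H : ℕ) : ℝ) ≤ t := by
      rw [Nat.cast_mul]
      calc (((2 * s + 1) ^ k : ℕ) : ℝ) * (H : ℝ)
          ≤ Real.exp (L / 80) * (2 * Real.exp e) :=
            mul_le_mul hP hH3 (by positivity) (by positivity)
        _ ≤ Real.exp (L / 80) * (Real.exp 1 * Real.exp e) := by
            apply mul_le_mul_of_nonneg_left _ (Real.exp_pos _).le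
            exact mul_le_mul_of_nonneg_right hexp1 (Real.exp_pos _).le
        _ = Real.exp (L / 80 + (1 + e)) := by rw [Real.exp_add, Real.exp_add]
        _ ≤ Real.exp (199 * L / 8000) := by
            apply Real.exp_le_exp.mpr
            linarith
        _ ≤ y := hyL
        _ ≤ t := ht1
    exact_mod_cast h1
  · -- the size of t ^ 40
    have h0 : -(th * Real.sqrt k) / 4 = -e := by rw [he]; ring
    rw [h0]
    have h1 : ((t ^ 40 : ℕ) : ℝ) = (t : ℝ) ^ 40 := by push_cast; ring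
    rw [h1]
    have h2 : 4 * Real.exp (L / 80) ≤ (n : ℝ) * Real.exp (-e) := by
      rw [hnL, ← Real.exp_add]
      calc 4 * Real.exp (L / 80) ≤ (Real.exp 1 * Real.exp 1) * Real.exp (L / 80) := by
            apply mul_le_mul_of_nonneg_right _ (Real.exp_pos _).le
            nlinarith
        _ = Real.exp (1 + 1 + L / 80) := by rw [Real.exp_add, Real.exp_add]
        _ ≤ Real.exp (L + -e) := by
            apply Real.exp_le_exp.mpr
            linarith
    linarith
  · -- the independence number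
    have hell : (ell t : ℝ) ≤ L := by
      have h1 : (2 : ℝ) ^ (Nat.log 2 t) ≤ t := by
        exact_mod_cast Nat.pow_log_le_self 2 (by omega)
      have h2 : (Nat.log 2 t : ℝ) * Real.log 2 ≤ Real.log t := by
        rw [← Real.log_pow]
        exact Real.log_le_log (by positivity) h1
      have h3 : (1 / 2 : ℝ) ≤ Real.log 2 := by
        have := Real.log_two_gt_d9
        linarith
      have ht0 : (0 : ℝ) < t := by linarith
      have h4 : Real.log t ≤ 1 + L / 40 := by
        have h5 : Real.log t ≤ Real.log (2 * y) := Real.log_le_log ht0 ht2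
        rw [Real.log_mul (by norm_num) hy0.ne', hy, Real.log_exp] at h5
        have h6 := Real.log_two_lt_d9
        linarith
      have h7 : (0 : ℝ) ≤ (Nat.log 2 t : ℝ) := Nat.cast_nonneg _
      have h8 : (Nat.log 2 t : ℝ) * (1 / 2) ≤ (Nat.log 2 t : ℝ) * Real.log 2 :=
        mul_le_mul_of_nonneg_left h3 h7
      unfold ell
      push_cast
      linarith
    have hell0 : (0 : ℝ) ≤ (ell t : ℝ) := Nat.cast_nonneg _
    have ht20 : (t : ℝ) ^ 20 ≤ 2 ^ 20 * (Real.sqrt n * Real.exp (-(e / 2))) := by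
      have h1 : (t : ℝ) ^ 20 ≤ (2 * y) ^ 20 := pow_le_pow_left₀ (Nat.cast_nonneg _) ht2 20
      have h2 : y ^ 20 = Real.sqrt n * Real.exp (-(e / 2)) := by
        rw [hnL, ← Real.exp_half, hy, ← Real.exp_nat_mul, ← Real.exp_add]
        congr 1
        push_cast
        ring
      rw [mul_pow, h2] at h1
      exact h1
    obtain ⟨w, hw⟩ : ∃ w : ℝ, w = Real.sqrt (L / u) := ⟨_, rfl⟩
    have hw0 : 0 ≤ w := by rw [hw]; exact Real.sqrt_nonneg _
    have hw2 : w ^ 2 = L / u := by
      rw [hw]; exact Real.sq_sqrt (by positivity)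
    have hwk : w / 13 ≤ Real.sqrt k := by
      apply Real.le_sqrt_of_sq_le
      have h1 : (w / 13) ^ 2 = w ^ 2 / 169 := by ring
      rw [h1, hw2]
      have h2 : L / (80 * u) = (L / u) / 80 := by
        rw [mul_comm, ← div_div]
      rw [h2] at hxk
      linarith
    have hew : th * w / 104 ≤ e / 2 := by
      rw [he]
      have := mul_le_mul_of_nonneg_left hwk hth.le
      linarith
    have hw3 : 624 / th * u ≤ w := by
      have h1 : (624 / th * u) ^ 2 ≤ w ^ 2 := by
        have h2 : L / u = Real.exp u / u ^ 3 * u ^ 2 := by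
          rw [hLu]
          field_simp
        rw [hw2, mul_pow, h2]
        exact mul_le_mul_of_nonneg_right hexp (by positivity)
      exact le_of_sq_le_sq h1 hw0
    have hw4 : 45 + 2 * u ≤ th * w / 208 := by
      have h1 : 624 * u ≤ th * w := by
        have h2 := mul_le_mul_of_nonneg_left hw3 hth.le
        have h3 : th * (624 / th * u) = 624 * u := by field_simp
        linarith
      linarith
    rw [← hL, ← hu, ← hw]
    have hq : ((4 * q1T t : ℕ) : ℝ) = 17280000 * (ell t : ℝ) ^ 2 * (t : ℝ) ^ 20 := by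
      unfold q1T
      push_cast
      ring
    rw [hq]
    have hell2 : (ell t : ℝ) ^ 2 ≤ Real.exp (2 * u) := by
      have h1 : (ell t : ℝ) ^ 2 ≤ L ^ 2 := pow_le_pow_left₀ hell0 hell 2
      have h2 : L ^ 2 = Real.exp (2 * u) := by
        have h3 : Real.exp (2 * u) = Real.exp u ^ 2 := by
          rw [← Real.exp_nat_mul]; norm_num
        rw [h3, ← hLu]
      rw [← h2]; exact h1
    have hK : (17280000 * 2 ^ 20 : ℝ) ≤ Real.exp 45 := by
      have h1 : (2 : ℝ) ^ 45 ≤ Real.exp 1 ^ 45 := pow_le_pow_left₀ (by norm_num) hexp1 45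
      have h2 : Real.exp 1 ^ 45 = Real.exp 45 := by
        rw [← Real.exp_nat_mul]; norm_num
      rw [h2] at h1
      refine le_trans ?_ h1
      norm_num
    calc 17280000 * (ell t : ℝ) ^ 2 * (t : ℝ) ^ 20
        ≤ 17280000 * Real.exp (2 * u) * (2 ^ 20 * (Real.sqrt n * Real.exp (-(e / 2)))) := by
          apply mul_le_mul _ ht20 (by positivity) (by positivity)
          exact mul_le_mul_of_nonneg_left hell2 (by norm_num)
      _ = (17280000 * 2 ^ 20) * (Real.exp (2 * u) * (Real.sqrt n * Real.exp (-(e / 2)))) := by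
          ring
      _ ≤ Real.exp 45 * (Real.exp (2 * u) * (Real.sqrt n * Real.exp (-(e / 2)))) :=
          mul_le_mul_of_nonneg_right hK (by positivity)
      _ = Real.sqrt n * (Real.exp 45 * Real.exp (2 * u) * Real.exp (-(e / 2))) := by ring
      _ = Real.sqrt n * Real.exp (45 + 2 * u + -(e / 2)) := by
          rw [Real.exp_add, Real.exp_add]
      _ ≤ Real.sqrt n * Real.exp (-(th / 208 * w)) := by
          apply mul_le_mul_of_nonneg_left _ (Real.sqrt_nonneg _)
          apply Real.exp_le_exp.mpr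
          linarith
  · -- the number of cells
    refine hP.trans ?_
    have h1 : 1 / ε ≤ Real.exp (L / 2) := by
      have h2 := Real.add_one_le_exp (L / 2)
      have h3 : 2 / ε = 2 * (1 / ε) := by ring
      rw [h3] at hLε
      linarith
    have h4 : 1 ≤ ε * Real.exp (L / 2) := by
      rw [div_le_iff₀ hε] at h1
      linarith
    have h5 : Real.exp L = Real.exp (L / 2) * Real.exp (L / 2) := by
      rw [← Real.exp_add]; congr 1; ring
    have h6 : Real.exp (L / 80) ≤ Real.exp (L / 2) := by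
      apply Real.exp_le_exp.mpr; linarith
    rw [hnL, h5]
    have h7 : 0 ≤ Real.exp (L / 2) := (Real.exp_pos _).le
    calc Real.exp (L / 80) ≤ 1 * Real.exp (L / 2) := by linarith
      _ ≤ (ε * Real.exp (L / 2)) * Real.exp (L / 2) := mul_le_mul_of_nonneg_right h4 h7
      _ = ε * (Real.exp (L / 2) * Real.exp (L / 2)) := by ring

/-- RT-G1. Choice of the parameters. -/
theorem parameters (th ε : ℝ) (hth : 0 < th) (hε : 0 < ε) : ∃ c : ℝ, 0 < c ∧
    ∀ᶠ n : ℕ in Filter.atTop, ∃ k s t H : ℕ, 96 ≤ k ∧ 1 ≤ s ∧ 4 * Real.sqrt k ≤ th * s ∧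
      10 / Real.sqrt k + Real.exp (-(k : ℝ) / 40) ≤ ε ∧
      10 ≤ t ∧ 2 ≤ H ∧ n ≤ H * t ^ 40 ∧ (2 * s + 1) ^ k * H ≤ t ∧
      (n : ℝ) / 2 * Real.exp (-(th * Real.sqrt k) / 4) + 2 * (((2 * s + 1) ^ k : ℕ) : ℝ)
        ≤ ((t ^ 40 : ℕ) : ℝ) ∧
      ((4 * q1T t : ℕ) : ℝ) ≤
        Real.sqrt n * Real.exp (-(c * Real.sqrt (Real.log n / Real.log (Real.log n)))) ∧
      (((2 * s + 1) ^ k : ℕ) : ℝ) ≤ ε * n := by
  refine ⟨th / 208, by positivity, ?_⟩
  -- limits
  have tL : Tendsto (fun n : ℕ => Real.log n) atTop atTop :=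
    Real.tendsto_log_atTop.comp tendsto_natCast_atTop_atTop
  have tu : Tendsto (fun n : ℕ => Real.log (Real.log n)) atTop atTop :=
    Real.tendsto_log_atTop.comp tL
  have tE : ∀ m : ℕ, Tendsto (fun n : ℕ => Real.exp (Real.log (Real.log n)) /
      (Real.log (Real.log n)) ^ m) atTop atTop := fun m =>
    (Real.tendsto_exp_div_pow_atTop m).comp tu
  have tx : Tendsto (fun n : ℕ => Real.log n / (80 * Real.log (Real.log n))) atTop atTop := by
    have h1 : Tendsto (fun n : ℕ => (1 / 80) * (Real.exp (Real.log (Real.log n)) /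
        (Real.log (Real.log n)) ^ 1)) atTop atTop :=
      (tE 1).const_mul_atTop (by norm_num)
    refine h1.congr' ?_
    filter_upwards [tL.eventually_gt_atTop 0] with n hn
    rw [Real.exp_log hn, pow_one]
    rw [one_div_mul_eq_div, div_div, mul_comm]
  have tk : Tendsto (fun n : ℕ => ⌊Real.log n / (80 * Real.log (Real.log n))⌋₊) atTop atTop :=
    tendsto_nat_floor_atTop.comp tx
  -- properties of `k`
  have tsq : Tendsto (fun k : ℕ => Real.sqrt k) atTop atTop :=
    Real.tendsto_sqrt_atTop.comp tendsto_natCast_atTop_atTop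
  have e1 : ∀ᶠ k : ℕ in atTop, 10 / Real.sqrt k + Real.exp (-(k : ℝ) / 40) ≤ ε := by
    have h1 : Tendsto (fun k : ℕ => 10 / Real.sqrt k + Real.exp (-(k : ℝ) / 40)) atTop
        (nhds (0 + 0)) := by
      apply Tendsto.add
      · exact tsq.const_div_atTop 10
      · apply Real.tendsto_exp_atBot.comp
        have h2 : Tendsto (fun k : ℕ => (k : ℝ) * (-1 / 40)) atTop atBot :=
          tendsto_natCast_atTop_atTop.atTop_mul_const_of_neg (by norm_num)
        refine h2.congr ?_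
        intro k
        ring
    rw [add_zero] at h1
    exact h1.eventually_le_const hε
  have e2 : ∀ᶠ k : ℕ in atTop, 8 * Real.sqrt k / th + 3 ≤ k := by
    filter_upwards [tsq.eventually_ge_atTop (8 / th + 3)] with k hk
    have h1 : Real.sqrt k * Real.sqrt k = k := Real.mul_self_sqrt (Nat.cast_nonneg _)
    have h2 : 0 < 8 / th := by positivity
    have h3 : 8 * Real.sqrt k / th = 8 / th * Real.sqrt k := by ring
    rw [h3]
    nlinarith [Real.sqrt_nonneg (k : ℝ)]
  have e3 : ∀ᶠ k : ℕ in atTop, 2 ≤ Real.exp (th * Real.sqrt k / 4) := by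
    filter_upwards [tsq.eventually_ge_atTop (4 / th)] with k hk
    have h1 : 4 ≤ th * Real.sqrt k := by
      rw [div_le_iff₀ hth] at hk
      linarith
    have h2 := Real.add_one_le_exp (th * Real.sqrt k / 4)
    linarith
  filter_upwards [tu.eventually_ge_atTop 45, tL.eventually_ge_atTop 450,
    tL.eventually_ge_atTop ((50 * th) ^ 2), tL.eventually_ge_atTop (2 / ε),
    (tE 3).eventually_ge_atTop ((624 / th) ^ 2), tk.eventually_ge_atTop 96,
    tk.eventually e1, tk.eventually e2, tk.eventually e3] with n h1 h2 h3 h4 h5 h6 h7 h8 h9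
  exact parameters_core th ε hth hε n (Real.log n) (Real.log (Real.log n)) rfl rfl h1 h2 h3 h4 h5
    _ rfl h6 h7 h8 h9

end Pool.Agent.Helper73.RT
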